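import Mathlib
import Pool.Agent.H33.Cusp

namespace Pool.Agent.Results.MP_f322fd_al.Q1

theorem result : ∃ (A B : Type) (_ : CommRing A) (_ : CommRing B) (f : A →+* B) (p : Ideal A),
    IsRegularLocalRing A ∧ IsRegularLocalRing B ∧ CharZero A ∧ CharZero B ∧
    Function.Injective f ∧ f.Finite ∧ p.IsPrime ∧
    IsRegularLocalRing (B ⧸ (p.map f).radical) ∧ ¬ IsRegularLocalRing (A ⧸ p) :=
  open Pool.Agent.H33.Cusp in
  ⟨L, L, inferInstance, inferInstance, io, pp, inferInstance, inferInstance, inferInstance,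
    inferInstance, io_inj, io_finite, inferInstance, reg_quot, not_reg⟩

end Pool.Agent.Results.MP_f322fd_al.Q1
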